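import Pool.Agent.Helper77K9.WP.Count

/-!
# MP_de5eaa_nt: Wilson primes among the Wilson primes of all orders

A prime `p` is a Wilson prime of order `n` (`1 ≤ n ≤ p`) if
`(n - 1)! (p - n)! ≡ (-1)^n (mod p ^ 2)`; for `n = 1` these are the Wilson primes.

We prove that different orders repel each other: two different orders `m, n ≤ N` have no
common Wilson prime `p ≥ N ^ N`, for at most one order the set of Wilson primes contains all but
finitely many primes, and on the average over the orders `n ≤ N` the number of Wilson primes of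
order `n` up to `x` is at most `π(x) / N + 5 π(x) ^ (2 / 3) + √x`.
-/

set_option autoImplicit false

namespace Pool.Agent.Helper77K9.Old.WilsonOrders

open Finset Nat

/-- `p` is a Wilson prime of order `n`. -/
def IsWilson (n p : ℕ) : Prop :=
  p.Prime ∧ 1 ≤ n ∧ n ≤ p ∧ (p : ℤ) ^ 2 ∣ ((n - 1)! : ℤ) * ((p - n)! : ℤ) - (-1) ^ n

/-- The number of Wilson primes of order `n` up to `x`. -/
noncomputable def W (n x : ℕ) : ℕ := {p : ℕ | p ≤ x ∧ IsWilson n p}.ncard

theorem result :
    -- order 1: the Wilson primes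
    (∀ p : ℕ, IsWilson 1 p ↔ p.Prime ∧ p ^ 2 ∣ (p - 1)! + 1) ∧
    -- two orders have few common Wilson primes
    (∀ m n N p : ℕ, m ≠ n → m ≤ N → n ≤ N → IsWilson m p → IsWilson n p → p < N ^ N) ∧
    -- at most one order for which almost all primes are Wilson primes
    (∀ m n : ℕ, m ≠ n → {p : ℕ | p.Prime ∧ ¬ IsWilson m p}.Finite →
      {p : ℕ | p.Prime ∧ ¬ IsWilson n p}.Infinite ∧ {p : ℕ | IsWilson n p}.Finite) ∧
    -- the mean value over the orders
    (∀ N x : ℕ, ∑ n ∈ Icc 1 N, (W n x : ℝ) ≤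
      Nat.primeCounting x + 5 * N * (Nat.primeCounting x : ℝ) ^ ((2 : ℝ) / 3) + N * √(x : ℝ)) := by
  have hW : ∀ n p, IsWilson n p ↔ Pool.Agent.Helper77K9.WP.IsW n p := fun n p => Iff.rfl
  have h2 : ∀ m n N p : ℕ, m ≠ n → m ≤ N → n ≤ N → IsWilson m p → IsWilson n p → p < N ^ N := by
    intro m n N p hmn hm hn h1 h2
    by_contra h
    exact hmn (Pool.Agent.Helper77K9.WP.large (not_lt.mp h) h1 h2 hm hn)
  refine ⟨?_, h2, ?_, ?_⟩
  · intro p
    constructor
    · rintro ⟨h1, -, -, h4⟩
      refine ⟨h1, ?_⟩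
      have : ((p ^ 2 : ℕ) : ℤ) ∣ (((p - 1)! + 1 : ℕ) : ℤ) := by
        push_cast
        simpa using h4
      exact_mod_cast this
    · rintro ⟨h1, h4⟩
      refine ⟨h1, le_rfl, h1.pos, ?_⟩
      have : ((p ^ 2 : ℕ) : ℤ) ∣ (((p - 1)! + 1 : ℕ) : ℤ) := by exact_mod_cast h4
      push_cast at this
      simpa using this
  · intro m n hmn hm
    have hfin : {p : ℕ | IsWilson n p}.Finite := by
      apply (hm.union (Set.finite_lt_nat ((max m n) ^ (max m n)))).subset
      intro p hp
      by_cases h : IsWilson m p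
      · exact Or.inr (h2 m n _ p hmn (le_max_left _ _) (le_max_right _ _) h hp)
      · exact Or.inl ⟨hp.1, h⟩
    refine ⟨?_, hfin⟩
    intro hc
    apply Nat.infinite_setOf_prime
    apply (hc.union hfin).subset
    intro p hp
    by_cases h : IsWilson n p
    · exact Or.inr h
    · exact Or.inl ⟨hp, h⟩
  · intro N x
    classical
    have h := Pool.Agent.Helper77K9.WP.sum_le x N
    rw [Pool.Agent.Helper77K9.WP.prs_card] at h
    refine le_trans (le_of_eq ?_) h
    have e : ∀ n ∈ Icc 1 N, W n x =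
        ((Pool.Agent.Helper77K9.WP.prs x).filter (fun p => IsWilson n p)).card := by
      intro n _
      rw [W, ← Set.ncard_coe_finset]
      congr 1
      ext p
      simp only [Set.mem_setOf_eq, Finset.coe_filter, Pool.Agent.Helper77K9.WP.prs,
        Finset.mem_filter, Finset.mem_range]
      constructor
      · rintro ⟨h1, h2⟩
        exact ⟨⟨by omega, h2.1⟩, h2⟩
      · rintro ⟨⟨h1, -⟩, h2⟩
        exact ⟨by omega, h2⟩
    rw [← Nat.cast_sum]
    congr 1
    rw [Finset.sum_congr rfl e]
    have e2 : ∀ p, (Pool.Agent.Helper77K9.WP.ords p N).card =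
        ((Icc 1 N).filter (fun n => IsWilson n p)).card := by
      intro p
      rw [Pool.Agent.Helper77K9.WP.ords]
      congr
    simp only [e2, Finset.card_filter]
    exact Finset.sum_comm

end Pool.Agent.Helper77K9.Old.WilsonOrders
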